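import Pool.Agent.N576.MX2.E

/-! Project MX2: two paths have few pairs of branches at comparable levels with equal values. -/

set_option autoImplicit false

namespace Pool.Agent.N128.MX2

open Pool.Agent.H499R2 Pool.Agent.TH880.MK Pool.Agent.N576.MK Pool.Agent.N576.MX Pool.Agent.N576.MX2
open Pool.Agent.N576.MX (rn ofr piv pvs wv jj RUNREP UNIQ RUNX)

noncomputable section

lemma take_len {P : List Bool} {m : ℕ} {b : Bool} (h : P.take m ++ [b] <+: P) :
    m < P.length ∧ (P.take m).length = m := by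
  have h1 := h.length_le
  rw [List.length_append, List.length_take, List.length_singleton] at h1
  have h2 : m < P.length := by omega
  exact ⟨h2, by rw [List.length_take]; omega⟩

lemma take_prefix (P : List Bool) {m n : ℕ} (h : m ≤ n) : P.take m <+: P.take n :=
  (List.take_prefix_take_left h)

lemma sz_one (l : List Bool) : 1 ≤ sz l := by
  have := pt_pos l
  unfold sz
  omega

lemma log_le {H ρ : ℕ} (hH : 1 ≤ H) (hs : (10 : ℝ) ^ 20 * ((4 * H : ℕ) : ℝ) ^ 20 ≤ 4 ^ ρ) {x : ℕ}
    (hx : 1 ≤ x) (hxH : x ≤ H) : Nat.log 2 x < ρ := by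
  have h0 : (10 : ℕ) ^ 20 * (4 * H) ^ 20 ≤ 4 ^ ρ := by exact_mod_cast hs
  have h1 : 2 ^ Nat.log 2 x ≤ x := Nat.pow_log_le_self 2 (by omega)
  by_contra hcon
  push Not at hcon
  have h2 : (2 : ℕ) ^ ρ ≤ H := (Nat.pow_le_pow_right (by norm_num) hcon).trans (h1.trans hxH)
  have h3 : (4 : ℕ) ^ ρ = 2 ^ ρ * 2 ^ ρ := by
    rw [← mul_pow]; norm_num
  have h4 : (4 : ℕ) ^ ρ ≤ H ^ 2 := by
    rw [h3, pow_two]; exact Nat.mul_le_mul h2 h2
  have h5 : H ^ 2 ≤ (4 * H) ^ 20 := by
    calc H ^ 2 ≤ (4 * H) ^ 2 := Nat.pow_le_pow_left (by omega) 2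
      _ ≤ (4 * H) ^ 20 := Nat.pow_le_pow_right (by omega) (by norm_num)
  have h6 : 0 < (4 * H) ^ 20 := by positivity
  have h7 : (10 : ℕ) ^ 20 * (4 * H) ^ 20 ≤ (4 * H) ^ 20 := h0.trans (h4.trans h5)
  nlinarith

theorem combp_of (h0 : COMB0) (hR : RUNX) : COMBP := by
  classical
  obtain ⟨C0, hC0, hcomb⟩ := h0
  refine ⟨6080 * (C0 + 2), by positivity, ?_⟩
  intro H ρ P P' T l φ N d d' hH hρ hs hT
  have hρ2 : (2 : ℝ) ≤ ρ := by exact_mod_cast hρ
  have hρ5 : (1 : ℝ) ≤ (ρ : ℝ) ^ 5 := one_le_pow₀ (by linarith)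
  -- the nodes of the path
  obtain ⟨R, hRd⟩ : ∃ R : ℕ → List Bool, ∀ m, R m = P.take m := ⟨fun m => P.take m, fun _ => rfl⟩
  have hlen : ∀ m ∈ T, (R m).length = m := fun m hm => by
    rw [hRd]; exact (take_len (hT m hm).2.1).2
  have hRn : ∀ m ∈ T, R m ++ [!(d m)] <+: P := fun m hm => by rw [hRd]; exact (hT m hm).2.1
  have hRl : ∀ m ∈ T, R m ++ [d m] <+: l m := fun m hm => by rw [hRd]; exact (hT m hm).1
  have hNR : ∀ m ∈ T, |FF (N m) - FF (R m)| ≤ ρ := fun m hm => by
    rw [hRd]; exact (hT m hm).2.2.2.2.1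
  have hRH : ∀ m ∈ T, sz (R m) ≤ H := fun m hm =>
    (sz_prefix ((List.prefix_append _ _).trans (hRl m hm))).trans (hT m hm).2.2.2.2.2.1
  have hlevR : ∀ m ∈ T, ∀ n ∈ T, m ≤ n → FF (R m) + ((n : ℝ) - m) / 4 ≤ FF (R n) := by
    intro m hm n hn hmn
    have h1 := FF_len (show R m <+: R n by rw [hRd, hRd]; exact take_prefix P hmn)
    rwa [hlen m hm, hlen n hn] at h1
  -- the classes
  set f : ℕ → ℕ × ℕ := fun m => (Nat.log 2 (sz (R m)), m % (64 * ρ)) with hf
  have hclass : ∀ y : ℕ × ℕ, ((T.filter (fun m => f m = y)).card : ℝ) ≤ 95 * (C0 * (ρ : ℝ) ^ 5 + 2) := by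
    rintro ⟨j, r⟩
    set T0 := T.filter (fun m => f m = (j, r)) with hT0
    have hm0 : ∀ m ∈ T0, m ∈ T ∧ Nat.log 2 (sz (R m)) = j ∧ m % (64 * ρ) = r := by
      intro m hm
      obtain ⟨h1, h2⟩ := Finset.mem_filter.mp hm
      exact ⟨h1, congrArg Prod.fst h2, congrArg Prod.snd h2⟩
    obtain ⟨s, hsd⟩ : ∃ s : ℕ, s = 2 ^ j := ⟨_, rfl⟩
    have hs1 : 1 ≤ s := by rw [hsd]; exact Nat.one_le_two_pow
    have hsR : ∀ m ∈ T0, s ≤ sz (R m) ∧ sz (R m) < 2 * s := by
      intro m hm
      obtain ⟨h1, h2, -⟩ := hm0 m hm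
      rw [hsd, ← h2]
      refine ⟨Nat.pow_log_le_self 2 (by have := sz_one (R m); omega), ?_⟩
      have := Nat.lt_pow_succ_log_self (b := 2) (by norm_num) (sz (R m))
      rw [pow_succ] at this
      omega
    have hlev : ∀ m ∈ T0, (s : ℝ) / 2 ≤ FF (R m) ∧ FF (R m) ≤ 4 * s := by
      intro m hm
      obtain ⟨h1, h2⟩ := hsR m hm
      obtain ⟨h3, h4⟩ := FF_size (R m)
      have h1' : (s : ℝ) ≤ sz (R m) := by exact_mod_cast h1
      have h2' : (sz (R m) : ℝ) ≤ 2 * s := by exact_mod_cast h2.le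
      constructor <;> linarith
    have hsp : ∀ m ∈ T0, ∀ n ∈ T0, m < n → FF (R m) + 16 * ρ ≤ FF (R n) := by
      intro m hm n hn hmn
      obtain ⟨h1, -, h2⟩ := hm0 m hm
      obtain ⟨h3, -, h4⟩ := hm0 n hn
      have h5 := hlevR m h1 n h3 hmn.le
      have h6 : m + 64 * ρ ≤ n := by
        have e1 := Nat.div_add_mod m (64 * ρ)
        have e2 := Nat.div_add_mod n (64 * ρ)
        rw [h2] at e1
        rw [h4] at e2
        have h7 : m / (64 * ρ) < n / (64 * ρ) := by
          by_contra hcon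
          push Not at hcon
          have := Nat.mul_le_mul_left (64 * ρ) hcon
          omega
        have h8 := Nat.mul_le_mul_left (64 * ρ) (Nat.succ_le_of_lt h7)
        rw [Nat.succ_eq_add_one, mul_add, mul_one] at h8
        omega
      have h7 : (m : ℝ) + 64 * ρ ≤ n := by exact_mod_cast h6
      linarith
    -- small sizes
    rcases Nat.lt_or_ge s (16 * ρ) with hsm | hbig
    · have h1 : T0.card ≤ 5 := by
        have hin : Set.InjOn (fun m => m / (64 * ρ)) (T0 : Set ℕ) := by
          intro m hm n hn h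
          have h2 := (hm0 m hm).2.2
          have h4 := (hm0 n hn).2.2
          have e1 := Nat.div_add_mod m (64 * ρ)
          have e2 := Nat.div_add_mod n (64 * ρ)
          have h5 : m / (64 * ρ) = n / (64 * ρ) := h
          rw [h2] at e1
          rw [h4, ← h5] at e2
          omega
        rw [← Finset.card_image_of_injOn hin]
        have hsub : T0.image (fun m => m / (64 * ρ)) ⊆ Finset.range 5 := by
          intro x hx
          obtain ⟨m, hm, rfl⟩ := Finset.mem_image.mp hx
          rw [Finset.mem_range]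
          have h2 := FF_len (List.nil_prefix (l := R m))
          rw [hlen m (hm0 m hm).1] at h2
          have h3 := (FF_size []).1
          have h4 : (0 : ℝ) ≤ sz ([] : List Bool) := Nat.cast_nonneg _
          have h5 := (hlev m hm).2
          have h6 : (s : ℝ) ≤ 16 * ρ := by exact_mod_cast hsm.le
          have h7 : (m : ℝ) ≤ 256 * ρ := by
            simp only [List.length_nil, Nat.cast_zero, sub_zero] at h2
            linarith
          have h8 : m ≤ 256 * ρ := by exact_mod_cast h7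
          rw [Nat.div_lt_iff_lt_mul (by omega)]
          omega
        calc (T0.image (fun m => m / (64 * ρ))).card ≤ (Finset.range 5).card := Finset.card_le_card hsub
          _ = 5 := Finset.card_range 5
      have h2 : (T0.card : ℝ) ≤ 5 := by exact_mod_cast h1
      have h3 : 0 ≤ C0 * (ρ : ℝ) ^ 5 := by positivity
      linarith
    have hbig' : 16 * (ρ : ℝ) ≤ s := by exact_mod_cast hbig
    have hs32 : 32 ≤ s := by omega
    -- the run of the nodes
    have hRinj : Set.InjOn R (T0 : Set ℕ) := by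
      intro m hm n hn h
      rw [← hlen m (hm0 m hm).1, ← hlen n (hm0 n hn).1, h]
    obtain ⟨g, c, A, hA, hAc, hArun⟩ := hR P (T0.image R) s 1 hs1 (by
      intro X hX
      obtain ⟨m, hm, rfl⟩ := Finset.mem_image.mp hX
      obtain ⟨h1, h2⟩ := hsR m hm
      refine ⟨⟨_, hRn m (hm0 m hm).1⟩, h1, by rw [pow_one]; exact h2⟩)
    choose! t ht1 ht2 using hArun
    set T1 := T0.filter (fun m => R m ∈ A) with hT1
    have cT1 : T1.card = A.card := by
      have e : T1.image R = A := by
        ext X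
        rw [Finset.mem_image]
        constructor
        · rintro ⟨m, hm, rfl⟩
          exact (Finset.mem_filter.mp hm).2
        · intro hX
          obtain ⟨m, hm, rfl⟩ := Finset.mem_image.mp (hA hX)
          exact ⟨m, Finset.mem_filter.mpr ⟨hm, hX⟩, rfl⟩
      rw [← e, Finset.card_image_of_injOn]
      intro m hm n hn h
      exact hRinj (Finset.mem_filter.mp hm).1 (Finset.mem_filter.mp hn).1 h
    have cT : T0.card ≤ 5 * T1.card := by
      rw [cT1]
      rw [Finset.card_image_of_injOn hRinj] at hAc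
      omega
    have hmem1 : ∀ m ∈ T1, m ∈ T0 ∧ R m = rn g c (t (R m)) ∧ m = t (R m) + g.length ∧
        rn g c (t (R m)) ++ [!c] <+: l m := by
      intro m hm
      obtain ⟨h1, h2⟩ := Finset.mem_filter.mp hm
      have h3 := ht1 _ h2
      have h4 := ht2 _ h2
      have h5 := (hm0 m h1).1
      refine ⟨h1, h3, ?_, ?_⟩
      · have h6 := hlen m h5
        rw [h3, rn_len] at h6
        omega
      · rw [rn_succ, ← h3] at h4
        have h6 := two_ext (hRn m h5) h4
        rw [← h3, ← h6, Bool.not_not]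
        exact hRl m h5
    -- the run of the partners
    have hN : ∀ m ∈ T0, FF (R m) - ρ ≤ FF (N m) ∧ FF (N m) ≤ FF (R m) + ρ := by
      intro m hm
      have := abs_le.mp (hNR m (hm0 m hm).1)
      constructor <;> linarith
    have hNsz : ∀ m ∈ T0, 7 * (s : ℝ) / 32 ≤ sz (N m) ∧ (sz (N m) : ℝ) ≤ 9 * s := by
      intro m hm
      obtain ⟨h1, h2⟩ := hN m hm
      obtain ⟨h3, h4⟩ := hlev m hm
      obtain ⟨h5, h6⟩ := FF_size (N m)
      constructor <;> linarith
    have hNmono : ∀ m ∈ T0, ∀ n ∈ T0, m < n → FF (N m) < FF (N n) := by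
      intro m hm n hn hmn
      have h1 := hsp m hm n hn hmn
      have h2 := (hN m hm).2
      have h3 := (hN n hn).1
      linarith
    have hNinj : Set.InjOn N (T1 : Set ℕ) := by
      intro m hm n hn h
      have hm' := (hmem1 m hm).1
      have hn' := (hmem1 n hn).1
      rcases lt_trichotomy m n with h1 | h1 | h1
      · have := hNmono m hm' n hn' h1
        rw [h] at this
        exact absurd this (lt_irrefl _)
      · exact h1
      · have := hNmono n hn' m hm' h1
        rw [h] at this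
        exact absurd this (lt_irrefl _)
    obtain ⟨g', c', A', hA', hcard, hrun⟩ := hR P' (T1.image N) (s / 8) 8 (by omega) (by
      intro X hX
      obtain ⟨m, hm, rfl⟩ := Finset.mem_image.mp hX
      have hm' := (hmem1 m hm).1
      obtain ⟨h1, h2⟩ := hNsz m hm'
      refine ⟨⟨!(d' m), (hT m (hm0 m hm').1).2.2.2.1⟩, ?_, ?_⟩
      · have h3 : (((s / 8 : ℕ)) : ℝ) ≤ (s : ℝ) / 8 := Nat.cast_div_le
        have h4 : (((s / 8 : ℕ)) : ℝ) ≤ sz (N m) := by
          have : (0 : ℝ) ≤ s := Nat.cast_nonneg _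
          linarith
        exact_mod_cast h4
      · have h3 : sz (N m) ≤ 9 * s := by exact_mod_cast h2
        have h4 : s < 8 * (s / 8) + 8 := by omega
        norm_num
        omega)
    choose! t' ht1' ht2' using hrun
    set T2 := T1.filter (fun m => N m ∈ A') with hT2
    have cT2 : T2.card = A'.card := by
      have e : T2.image N = A' := by
        ext X
        rw [Finset.mem_image]
        constructor
        · rintro ⟨m, hm, rfl⟩
          exact (Finset.mem_filter.mp hm).2
        · intro hX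
          obtain ⟨m, hm, rfl⟩ := Finset.mem_image.mp (hA' hX)
          exact ⟨m, Finset.mem_filter.mpr ⟨hm, hX⟩, rfl⟩
      rw [← e, Finset.card_image_of_injOn]
      intro m hm n hn h
      exact hNinj (Finset.mem_filter.mp hm).1 (Finset.mem_filter.mp hn).1 h
    have cT1' : T1.card ≤ 19 * T2.card := by
      rw [cT2]
      rw [Finset.card_image_of_injOn hNinj] at hcard
      omega
    have hmem2 : ∀ m ∈ T2, m ∈ T1 ∧ N m = rn g' c' (t' (N m)) ∧
        rn g' c' (t' (N m)) ++ [!c'] <+: φ m := by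
      intro m hm
      obtain ⟨h1, h2⟩ := Finset.mem_filter.mp hm
      have h3 := ht1' _ h2
      have h4 := ht2' _ h2
      have h5 := hT m (hm0 m (hmem1 m h1).1).1
      refine ⟨h1, h3, ?_⟩
      rw [rn_succ, ← h3] at h4
      have h6 := two_ext h5.2.2.2.1 h4
      rw [← h3, ← h6, Bool.not_not]
      exact h5.2.2.1
    have hτmono : ∀ m ∈ T2, ∀ n ∈ T2, m < n → t' (N m) < t' (N n) := by
      intro m hm n hn hmn
      by_contra hcon
      push Not at hcon
      have h1 := lev_le g' c' hcon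
      rw [← (hmem2 m hm).2.1, ← (hmem2 n hn).2.1] at h1
      have h2 := hNmono m (hmem1 m (hmem2 m hm).1).1 n (hmem1 n (hmem2 n hn).1).1 hmn
      linarith
    set T3 := T2.filter (fun m => 1 ≤ t (R m) ∧ 1 ≤ t' (N m)) with hT3
    have cT3 : T2.card ≤ T3.card + 2 := by
      have h1 : (T2.filter (fun m => ¬ (1 ≤ t (R m) ∧ 1 ≤ t' (N m)))).card ≤ 2 := by
        have hsub : T2.filter (fun m => ¬ (1 ≤ t (R m) ∧ 1 ≤ t' (N m))) ⊆
            T2.filter (fun m => t (R m) = 0) ∪ T2.filter (fun m => t' (N m) = 0) := by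
          intro m hm
          obtain ⟨h2, h3⟩ := Finset.mem_filter.mp hm
          by_cases h4 : t (R m) = 0
          · exact Finset.mem_union.mpr (Or.inl (Finset.mem_filter.mpr ⟨h2, h4⟩))
          · refine Finset.mem_union.mpr (Or.inr (Finset.mem_filter.mpr ⟨h2, ?_⟩))
            by_contra h5
            exact h3 ⟨by omega, by omega⟩
        have h2 : (T2.filter (fun m => t (R m) = 0)).card ≤ 1 := by
          rw [Finset.card_le_one]
          intro a ha b hb
          obtain ⟨ha1, ha2⟩ := Finset.mem_filter.mp ha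
          obtain ⟨hb1, hb2⟩ := Finset.mem_filter.mp hb
          rw [(hmem1 a (hmem2 a ha1).1).2.2.1, (hmem1 b (hmem2 b hb1).1).2.2.1, ha2, hb2]
        have h3 : (T2.filter (fun m => t' (N m) = 0)).card ≤ 1 := by
          rw [Finset.card_le_one]
          intro a ha b hb
          obtain ⟨ha1, ha2⟩ := Finset.mem_filter.mp ha
          obtain ⟨hb1, hb2⟩ := Finset.mem_filter.mp hb
          rcases lt_trichotomy a b with h | h | h
          · have := hτmono a ha1 b hb1 h; omega
          · exact h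
          · have := hτmono b hb1 a ha1 h; omega
        have h4 := (Finset.card_le_card hsub).trans (Finset.card_union_le _ _)
        omega
      have h2 : T2.card = T3.card + (T2.filter (fun m => ¬ (1 ≤ t (R m) ∧ 1 ≤ t' (N m)))).card :=
        (Finset.card_filter_add_card_filter_not (s := T2) _).symm
      omega
    -- suffixes
    have hsx : ∀ m ∈ T3, ∃ s₁ s₂, l m = ofr g c (t (R m)) s₁ ∧ φ m = ofr g' c' (t' (N m)) s₂ := by
      intro m hm
      obtain ⟨h1, -⟩ := Finset.mem_filter.mp hm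
      obtain ⟨h2, -, h3⟩ := hmem2 m h1
      obtain ⟨-, -, -, h4⟩ := hmem1 m h2
      obtain ⟨u, hu⟩ := h4
      obtain ⟨v, hv⟩ := h3
      refine ⟨u, v, ?_, ?_⟩
      · rw [← hu]; unfold ofr; simp
      · rw [← hv]; unfold ofr; simp
    choose! s₁ s₂ hs₁ hs₂ using hsx
    -- the set of positions
    have hfin : ((T3.image (fun m => t (R m))).card : ℝ) ≤ C0 * (ρ : ℝ) ^ 5 := by
      have back : ∀ x ∈ T3.image (fun m => t (R m)), x + g.length ∈ T3 ∧
          t (R (x + g.length)) = x := by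
        intro x hx
        obtain ⟨m, hm, hx'⟩ := Finset.mem_image.mp hx
        have h1 := (hmem1 m (hmem2 m (Finset.mem_filter.mp hm).1).1).2.2.1
        have h2 : x + g.length = m := by
          have : t (R m) = x := hx'
          omega
        rw [h2]
        exact ⟨hm, hx'⟩
      refine hcomb H ρ g g' c c' (T3.image (fun m => t (R m))) (fun x => t' (N (x + g.length)))
        (fun x => s₁ (x + g.length)) (fun x => s₂ (x + g.length)) ((s : ℝ) / 2) hH hρ hs ?_ ?_
      · intro x hx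
        obtain ⟨h1, h2⟩ := back x hx
        set m := x + g.length with hmd
        obtain ⟨h3, h4, h5⟩ := Finset.mem_filter.mp h1
        obtain ⟨h6, h7, -⟩ := hmem2 m h3
        obtain ⟨h8, h9, -, -⟩ := hmem1 m h6
        have h10 := hT m (hm0 m h8).1
        have e1 : ofr g c x (s₁ m) = l m := by rw [hs₁ m h1, h2]
        have e2 : ofr g' c' (t' (N m)) (s₂ m) = φ m := (hs₂ m h1).symm
        have e3 : rn g c x = R m := by rw [h9, h2]
        have e4 : rn g' c' (t' (N m)) = N m := h7.symm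
        have h11 := hlev m h8
        show 1 ≤ x ∧ 1 ≤ t' (N m) ∧ sz (ofr g c x (s₁ m)) ≤ H ∧ sz (ofr g' c' (t' (N m)) (s₂ m)) ≤ H ∧
          FF (ofr g c x (s₁ m)) = FF (ofr g' c' (t' (N m)) (s₂ m)) ∧
          ofr g c x (s₁ m) ≠ ofr g' c' (t' (N m)) (s₂ m) ∧
          |FF (rn g c x) - FF (rn g' c' (t' (N m)))| ≤ ρ ∧ (s : ℝ) / 2 ≤ FF (rn g c x) ∧
          FF (rn g c x) ≤ 8 * ((s : ℝ) / 2)
        rw [e1, e2, e3, e4]
        refine ⟨by rw [h2] at h4; exact h4, h5, h10.2.2.2.2.2.1, h10.2.2.2.2.2.2.1,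
          h10.2.2.2.2.2.2.2.2.symm, h10.2.2.2.2.2.2.2.1.symm, ?_, h11.1, by linarith [h11.2]⟩
        rw [abs_sub_comm]; exact hNR m (hm0 m h8).1
      · intro x hx y hy hxy
        obtain ⟨h1, h2⟩ := back x hx
        obtain ⟨h1', h2'⟩ := back y hy
        have hlt : x + g.length < y + g.length := by omega
        obtain ⟨h3, -, -⟩ := Finset.mem_filter.mp h1
        obtain ⟨h3', -, -⟩ := Finset.mem_filter.mp h1'
        have h6 := (hmem2 _ h3).1
        have h6' := (hmem2 _ h3').1
        obtain ⟨h8, h9, -, -⟩ := hmem1 _ h6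
        obtain ⟨h8', h9', -, -⟩ := hmem1 _ h6'
        refine ⟨hτmono _ h3 _ h3' hlt, ?_⟩
        have h10 := hsp _ h8 _ h8' hlt
        rw [h2] at h9
        rw [h2'] at h9'
        rw [h9, h9'] at h10
        have : (0 : ℝ) ≤ ρ := by linarith
        linarith
    have cim : (T3.image (fun m => t (R m))).card = T3.card := by
      apply Finset.card_image_of_injOn
      intro m hm n hn h
      have h1 := (hmem1 m (hmem2 m (Finset.mem_filter.mp hm).1).1).2.2.1
      have h2 := (hmem1 n (hmem2 n (Finset.mem_filter.mp hn).1).1).2.2.1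
      have h3 : t (R m) = t (R n) := h
      omega
    rw [cim] at hfin
    have hc : (T0.card : ℝ) ≤ 95 * (T3.card + 2) := by
      have : T0.card ≤ 95 * (T3.card + 2) := by omega
      exact_mod_cast this
    linarith
  have himg : ((T.image f).card : ℝ) ≤ 64 * (ρ : ℝ) ^ 2 := by
    have hsub : T.image f ⊆ Finset.range ρ ×ˢ Finset.range (64 * ρ) := by
      intro y hy
      obtain ⟨m, hm, rfl⟩ := Finset.mem_image.mp hy
      rw [Finset.mem_product, Finset.mem_range, Finset.mem_range]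
      exact ⟨log_le (by omega) hs (sz_one _) (hRH m hm), Nat.mod_lt _ (by omega)⟩
    have h1 := Finset.card_le_card hsub
    rw [Finset.card_product, Finset.card_range, Finset.card_range] at h1
    have h2 : ((T.image f).card : ℝ) ≤ ((ρ * (64 * ρ) : ℕ) : ℝ) := by exact_mod_cast h1
    push_cast at h2
    linarith [show (ρ : ℝ) * (64 * ρ) = 64 * (ρ : ℝ) ^ 2 by ring]
  have hfinal := Pool.Agent.N576.MX.card_fibres T f (by positivity) hclass himg
  refine hfinal.trans ?_
  have h1 : C0 * (ρ : ℝ) ^ 5 + 2 ≤ (C0 + 2) * (ρ : ℝ) ^ 5 := by nlinarith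
  have h2 : (ρ : ℝ) ^ 7 ≤ (ρ : ℝ) ^ 8 := pow_le_pow_right₀ (by linarith) (by norm_num)
  calc 95 * (C0 * (ρ : ℝ) ^ 5 + 2) * (64 * (ρ : ℝ) ^ 2)
      ≤ 95 * ((C0 + 2) * (ρ : ℝ) ^ 5) * (64 * (ρ : ℝ) ^ 2) := by gcongr
    _ = 6080 * (C0 + 2) * (ρ : ℝ) ^ 7 := by ring
    _ ≤ 6080 * (C0 + 2) * (ρ : ℝ) ^ 8 := by gcongr

end

end Pool.Agent.N128.MX2
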