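import Pool.Agent.N580.NS.Stm

/-!
# NS/LIFT (helper128, for helper580)
-/

namespace Pool.Agent.N128.NS_LIFT

open Subgroup Pool.Agent.N580.NS
open scoped commutatorElement

theorem W_normal {X : Type} [Group X] {ι : Type} {S : ι → Subgroup X} (h : Soc S) :
    (⨆ i, S i).Normal := by
  refine ⟨fun w hw x => ?_⟩
  have h1 : (⨆ i, S i).map (MulAut.conj x).toMonoidHom ≤ ⨆ i, S i := by
    rw [Subgroup.map_iSup]
    refine iSup_le fun i => ?_
    obtain ⟨j, hj⟩ := h.conj x i
    rw [hj]
    exact le_iSup S j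
  exact h1 (Subgroup.mem_map_of_mem _ hw)

theorem W_norm {X : Type} [Group X] {ι : Type} {S : ι → Subgroup X} (h : Soc S) (i : ι) :
    (⨆ i, S i) ≤ Subgroup.normalizer (S i : Set X) := by
  refine iSup_le fun j => ?_
  by_cases hij : i = j
  · subst hij
    exact Subgroup.le_normalizer
  · intro b hb
    rw [Subgroup.mem_normalizer_iff]
    intro a
    constructor
    · intro ha
      have h1 : b * a * b⁻¹ = a := by
        rw [← h.comm i j hij a ha b hb]; group

      rw [h1]
      exact ha
    · intro ha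
      have h1 := h.comm i j hij (b * a * b⁻¹) ha b hb
      have h2 : a = b * a * b⁻¹ := by
        have h3 : b * a * b⁻¹ * b = b * a := by group
        rw [h3] at h1
        exact mul_left_cancel h1

      rw [h2]
      exact ha

section

variable {T X : Type} [Group T] [Group X] {ι : Type} {S : ι → Subgroup X} (φ : T →* X)

theorem fam (h : Soc S) (hr : φ.range = ⨆ i, S i) : Fam φ.ker (fun i => (S i).comap φ) := by
  have hlift : ∀ i, ∀ a ∈ S i, ∃ t ∈ (S i).comap φ, φ t = a := by
    intro i a ha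
    have h1 : a ∈ φ.range := by
      rw [hr]
      exact le_iSup S i ha
    obtain ⟨t, rfl⟩ := h1
    exact ⟨t, ha, rfl⟩
  refine ⟨inferInstance, ?_, ?_, ?_, ?_, ?_⟩
  · intro i
    refine ⟨fun a ha t => ?_⟩
    have h1 : φ t ∈ Subgroup.normalizer (S i : Set X) := by
      apply W_norm h i
      rw [← hr]
      exact ⟨t, rfl⟩
    rw [Subgroup.mem_comap, map_mul, map_mul, map_inv]
    exact (Subgroup.mem_normalizer_iff.1 h1 (φ a)).1 ha
  · intro i x hx
    rw [Subgroup.mem_comap, (MonoidHom.mem_ker).1 hx]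
    exact one_mem _
  · intro i j hij
    rw [Subgroup.commutator_le]
    intro a ha b hb
    rw [MonoidHom.mem_ker, map_commutatorElement, commutatorElement_eq_one_iff_mul_comm]
    exact h.comm i j hij _ ha _ hb
  · intro i N hN1 hN2 hN3
    rcases h.simple i (N.map φ) (by
      rintro _ ⟨n, hn, rfl⟩
      exact hN2 hn) (by
      rintro a ha _ ⟨n, hn, rfl⟩
      obtain ⟨t, ht, rfl⟩ := hlift i a ha
      exact ⟨t * n * t⁻¹, hN3 t ht n hn, by simp⟩) with h1 | h1
    · left
      refine le_antisymm ?_ hN1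
      intro x hx
      have h2 : φ x ∈ N.map φ := Subgroup.mem_map_of_mem _ hx
      rw [h1] at h2
      exact h2
    · right
      refine le_antisymm hN2 ?_
      intro x hx
      have h2 : φ x ∈ N.map φ := by
        rw [h1]
        exact hx
      obtain ⟨n, hn, hn2⟩ := h2
      have h3 : x * n⁻¹ ∈ N := hN1 (by
        rw [MonoidHom.mem_ker, map_mul, map_inv, hn2, mul_inv_cancel])
      have h4 := mul_mem h3 hn
      simpa using h4
  · intro i hc
    apply h.nonab i
    rw [Subgroup.commutator_le]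
    intro a ha b hb
    obtain ⟨s, hs, rfl⟩ := hlift i a ha
    obtain ⟨t, ht, rfl⟩ := hlift i b hb
    have h1 := hc (Subgroup.commutator_mem_commutator hs ht)
    rw [MonoidHom.mem_ker, map_commutatorElement] at h1
    rw [h1]
    exact one_mem _

theorem rel (hr : φ.range = ⨆ i, S i) (i : ι) :
    φ.ker.relIndex ((S i).comap φ) = Nat.card (S i) := by
  rw [Subgroup.relIndex_ker, Subgroup.map_comap_eq_self]
  rw [hr]
  exact le_iSup S i

theorem top (hr : φ.range = ⨆ i, S i) : φ.ker ⊔ (⨆ i, (S i).comap φ) = ⊤ := by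
  rw [eq_top_iff]
  intro x _
  have h1 : φ x ∈ (⨆ i, (S i).comap φ).map φ := by
    have h2 : φ x ∈ φ.range := ⟨x, rfl⟩
    rw [hr] at h2
    rw [Subgroup.map_iSup]
    refine (iSup_mono fun i => ?_ : (⨆ i, S i) ≤ _) h2
    rw [Subgroup.map_comap_eq_self]
    rw [hr]
    exact le_iSup S i
  obtain ⟨y, hy, hxy⟩ := h1
  have h3 : x * y⁻¹ ∈ φ.ker := by
    rw [MonoidHom.mem_ker, map_mul, map_inv, hxy, mul_inv_cancel]
  have h4 := Subgroup.mul_mem_sup h3 hy
  simpa using h4

end

theorem lift : LIFT := by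
  intro H _ _ R _ ι _ S h
  set π := QuotientGroup.mk' R with hπ
  set T : Subgroup H := (⨆ i, S i).comap π with hT
  set φ : T →* H ⧸ R := π.comp T.subtype with hφ
  have hker : R.subgroupOf T = φ.ker := by
    ext x
    rw [Subgroup.mem_subgroupOf, MonoidHom.mem_ker]
    change _ ↔ π (x : H) = 1
    rw [← MonoidHom.mem_ker, hπ, QuotientGroup.ker_mk']
  have hA : ∀ i, ((S i).comap π).subgroupOf T = (S i).comap φ := by
    intro i
    ext x
    rfl
  have hr : φ.range = ⨆ i, S i := by
    ext y
    constructor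
    · rintro ⟨x, rfl⟩
      exact x.2
    · intro hy
      obtain ⟨x, rfl⟩ := QuotientGroup.mk'_surjective R y
      exact ⟨⟨x, hy⟩, rfl⟩
  refine ⟨?_, ?_, ?_, ?_⟩
  · have := W_normal h
    exact Subgroup.Normal.comap this π
  · rw [hker]
    simp_rw [hA]
    exact fam φ h hr
  · intro i
    rw [hker, hA]
    exact rel φ hr i
  · rw [hker]
    simp_rw [hA]
    exact top φ hr

end Pool.Agent.N128.NS_LIFT
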