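import Pool.Agent.N795.SO.Stm
import Pool.Agent.TH268.PD.Drift

/-!
# SO (helper795), DET1: the derivative of the Laplace transform under transpositions
-/

set_option autoImplicit false

namespace Pool.Agent.N795.SO

open Finset Equiv
open Pool.Agent.W805.LR (len cnt)
open Pool.Agent.TH268.PD (lap)
open Pool.Agent.TH268.PD.Drift

namespace N128Det1

variable {V : Type} [Fintype V] [DecidableEq V]

/-- `N` times `lap` -/
noncomputable def S (x : ℝ) (h : Perm V) : ℝ := ∑ v, (1 - Real.exp (-(x * len h v)))

/-- the effect of a merger -/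
noncomputable def Φ (x : ℝ) (g : Perm V) (a b : V) : ℝ :=
  len g a * Real.exp (-(x * len g a)) * (1 - Real.exp (-(x * len g b)))
      + len g b * Real.exp (-(x * len g b)) * (1 - Real.exp (-(x * len g a)))

/-- the bound for one point -/
lemma per_point (x : ℝ) (hx : 0 < x) (g : Perm V) (a : V) :
    ∑ b, |(S x (g * swap a b) - S x g) - Φ x g a b| ≤ 4 / x ^ 2 := by
  classical
  have hp0 : 0 ≤ len g a := len_nonneg g a
  have h0 : ∀ b, |(S x (g * swap a b) - S x g) - Φ x g a b| ≤
      if g.SameCycle a b then |S x (g * swap a b) - S x g| + Φ x g a b else 0 := by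
    intro b
    have hΦ0 : 0 ≤ Φ x g a b := by
      have h5 := one_sub_exp_nonneg hx (len_nonneg g a)
      have h6 := one_sub_exp_nonneg hx (len_nonneg g b)
      have h7 := len_nonneg g a
      have h8 := len_nonneg g b
      simp only [Φ]
      positivity
    by_cases h : g.SameCycle a b
    · rw [if_pos h]
      calc |(S x (g * swap a b) - S x g) - Φ x g a b| ≤ |S x (g * swap a b) - S x g| + |Φ x g a b| :=
            abs_sub _ _
        _ = _ := by rw [abs_of_nonneg hΦ0]
    · rw [if_neg h]
      have h1 := merge_sum (fun l => 1 - Real.exp (-(x * l))) g a b h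
      rw [phi_lap] at h1
      have h2 : S x (g * swap a b) - S x g = Φ x g a b := h1
      rw [h2, sub_self, abs_zero]
  refine (Finset.sum_le_sum fun b _ => h0 b).trans ?_
  rw [cyc_sum g a (fun b => |S x (g * swap a b) - S x g| + Φ x g a b), Finset.sum_add_distrib]
  have hlen : len g a = per g a := len_eq_per g a
  have hΦi : ∀ i ∈ range (per g a), Φ x g a ((g ^ i) a) ≤
      2 * (len g a * Real.exp (-(x * len g a))) := by
    intro i _
    have h1 : len g ((g ^ i) a) = len g a :=
      (Pool.Agent.TH268.PD.MassSwap.len_congr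
        (⟨(i : ℤ), by rw [zpow_natCast]⟩ : g.SameCycle a ((g ^ i) a))).symm
    have h2 : 0 ≤ len g a * Real.exp (-(x * len g a)) := by positivity
    simp only [Φ, h1]
    nlinarith [mul_le_mul_of_nonneg_left (one_sub_exp_le x (len g a)) h2]
  have hΦs : ∑ i ∈ range (per g a), Φ x g a ((g ^ i) a) ≤ 2 / x ^ 2 := by
    refine (Finset.sum_le_sum hΦi).trans ?_
    rw [Finset.sum_const, Finset.card_range, nsmul_eq_mul, ← hlen]
    have := sq_exp_le hx hp0
    have e : 2 / x ^ 2 = 2 * (1 / x ^ 2) := by ring
    rw [e]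
    nlinarith
  have hDi : ∀ i ∈ range (per g a), |S x (g * swap a ((g ^ i) a)) - S x g| ≤
      (i : ℝ) * Real.exp (-(x * i)) +
        ((per g a - i : ℕ) : ℝ) * Real.exp (-(x * ((per g a - i : ℕ) : ℝ))) := by
    intro i hi
    have hi' := Finset.mem_range.1 hi
    rcases Nat.eq_zero_or_pos i with h0 | h0
    · subst h0
      simp only [pow_zero, Perm.coe_one, id_eq, swap_self]
      have : (g * Equiv.refl V : Perm V) = g := by ext; rfl
      rw [this, sub_self, abs_zero]
      positivity
    · have hne : a ≠ (g ^ i) a := by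
        intro h
        have := pow_inj g a (i := 0) (j := i) (per_pos g a) hi' (by simpa using h)
        omega
      have hsame : g.SameCycle a ((g ^ i) a) := ⟨(i : ℤ), by rw [zpow_natCast]⟩
      have h1 := split_sum (fun l => 1 - Real.exp (-(x * l))) g a ((g ^ i) a) hne hsame
      have h2 := len_split g a i h0 hi'
      have h3 := split_len g a ((g ^ i) a) hne hsame
      rw [h2, hlen] at h3
      have h4 : len (g * swap a ((g ^ i) a)) a = ((per g a - i : ℕ) : ℝ) := by
        rw [Nat.cast_sub hi'.le]
        linarith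
      rw [phi_lap, h2, h4] at h1
      have h5 : S x (g * swap a ((g ^ i) a)) - S x g = _ := h1
      rw [h5, abs_neg]
      set q : ℝ := ((per g a - i : ℕ) : ℝ) with hq
      have hq0 : 0 ≤ q := Nat.cast_nonneg _
      have hi0 : (0 : ℝ) ≤ i := Nat.cast_nonneg _
      have h6 := one_sub_exp_nonneg hx hq0
      have h7 := one_sub_exp_nonneg hx hi0
      have h8 : 0 ≤ q * Real.exp (-(x * q)) := by positivity
      have h9 : 0 ≤ (i : ℝ) * Real.exp (-(x * i)) := by positivity
      rw [abs_of_nonneg (by positivity)]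
      nlinarith [mul_le_mul_of_nonneg_left (one_sub_exp_le x (i : ℝ)) h8,
        mul_le_mul_of_nonneg_left (one_sub_exp_le x q) h9]
  have hDs : ∑ i ∈ range (per g a), |S x (g * swap a ((g ^ i) a)) - S x g| ≤ 2 / x ^ 2 := by
    refine (Finset.sum_le_sum hDi).trans ?_
    rw [Finset.sum_add_distrib]
    have h1 := geom_bound hx (per g a)
    have h2 : ∑ i ∈ range (per g a), ((per g a - i : ℕ) : ℝ) *
        Real.exp (-(x * ((per g a - i : ℕ) : ℝ))) ≤ 1 / x ^ 2 := by
      have h3 := geom_bound hx (per g a + 1)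
      rw [Finset.sum_range_succ'] at h3
      simp only [Nat.cast_zero, zero_mul, add_zero] at h3
      refine le_trans (le_of_eq ?_) h3
      rw [← Finset.sum_range_reflect]
      refine Finset.sum_congr rfl fun i hi => ?_
      have hi' := Finset.mem_range.1 hi
      have : per g a - (per g a - 1 - i) = i + 1 := by omega
      rw [this]
    have e : 2 / x ^ 2 = 1 / x ^ 2 + 1 / x ^ 2 := by ring
    rw [e]
    linarith
  have e : 4 / x ^ 2 = 2 / x ^ 2 + 2 / x ^ 2 := by ring
  rw [e]
  linarith

end N128Det1

open N128Det1 in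
theorem det1 : Det1 := by
  intro V _ _ _ J ε h g hJ0 hJs hJε hh
  classical
  have hN : (0 : ℝ) < Fintype.card V := by exact_mod_cast Fintype.card_pos
  set N : ℝ := (Fintype.card V : ℝ) with hNdef
  have hε : 0 ≤ ε := (hJ0 (Classical.arbitrary V) (Classical.arbitrary V)).trans (hJε _ _)
  have h1 : ∑ x, ∑ y, J x y * (len g x * Real.exp (-(h * len g x)) *
        (1 - Real.exp (-(h * len g y)))) = ∑ x, ∑ y, J x y / 2 * Φ h g x y := by
    have h2 : ∑ x, ∑ y, J x y * (len g x * Real.exp (-(h * len g x)) *
        (1 - Real.exp (-(h * len g y)))) = ∑ x, ∑ y, J x y *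
        (len g y * Real.exp (-(h * len g y)) * (1 - Real.exp (-(h * len g x)))) := by
      rw [Finset.sum_comm]
      refine Finset.sum_congr rfl fun x _ => Finset.sum_congr rfl fun y _ => ?_
      rw [hJs y x]
    have h3 : ∑ x, ∑ y, J x y / 2 * Φ h g x y =
        (∑ x, ∑ y, J x y * (len g x * Real.exp (-(h * len g x)) *
          (1 - Real.exp (-(h * len g y))))) / 2 +
        (∑ x, ∑ y, J x y * (len g y * Real.exp (-(h * len g y)) *
          (1 - Real.exp (-(h * len g x))))) / 2 := by
      rw [Finset.sum_div, Finset.sum_div, ← Finset.sum_add_distrib]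
      refine Finset.sum_congr rfl fun x _ => ?_
      rw [Finset.sum_div, Finset.sum_div, ← Finset.sum_add_distrib]
      refine Finset.sum_congr rfl fun y _ => ?_
      unfold Φ
      ring
    rw [h3, ← h2]
    ring
  have h4 : ∑ x, ∑ y, J x y / 2 * (lap h (g * swap x y) - lap h g) =
      (∑ x, ∑ y, J x y / 2 * (S h (g * swap x y) - S h g)) / N := by
    rw [Finset.sum_div]
    refine Finset.sum_congr rfl fun x _ => ?_
    rw [Finset.sum_div]
    refine Finset.sum_congr rfl fun y _ => ?_
    unfold lap S
    rw [← hNdef]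
    ring
  rw [h4, h1, ← sub_div, ← Finset.sum_sub_distrib, abs_div, abs_of_pos hN, div_le_iff₀ hN]
  have h5 : ∀ x, |∑ y, J x y / 2 * (S h (g * swap x y) - S h g) - ∑ y, J x y / 2 * Φ h g x y| ≤
      ε / 2 * (4 / h ^ 2) := by
    intro x
    rw [← Finset.sum_sub_distrib]
    refine (Finset.abs_sum_le_sum_abs _ _).trans ?_
    refine le_trans ?_ (mul_le_mul_of_nonneg_left (per_point h hh g x) (by linarith))
    rw [Finset.mul_sum]
    refine Finset.sum_le_sum fun y _ => ?_
    rw [← mul_sub, abs_mul, abs_of_nonneg (by have := hJ0 x y; linarith : 0 ≤ J x y / 2)]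
    exact mul_le_mul_of_nonneg_right (by have := hJε x y; linarith) (abs_nonneg _)
  refine (Finset.abs_sum_le_sum_abs _ _).trans ((Finset.sum_le_sum fun x _ => h5 x).trans ?_)
  rw [Finset.sum_const, Finset.card_univ, nsmul_eq_mul, ← hNdef]
  have h6 : 0 < h ^ 2 := by positivity
  have h7 : N * (ε / 2 * (4 / h ^ 2)) = 2 * ε / h ^ 2 * N := by ring
  rw [h7]
  apply mul_le_mul_of_nonneg_right _ hN.le
  apply div_le_div_of_nonneg_right _ h6.le
  linarith

end Pool.Agent.N795.SO

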